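import Pool.Agent.H.MP_63799c_pr.C

open Filter Topology MeasureTheory ProbabilityTheory

namespace Pool.Agent.Results.MP_63799c_pr.AS

/-- Value at the vertex `v` of the game with `t` moves left; `X u` is the cookie on the edge from
`u` to its parent, the children of `v` are the `c :: v`. -/
noncomputable def V {d : ℕ} (X : List (Fin d) → ℤ) : ℕ → List (Fin d) → ℤ
  | 0, _ => 0
  | t + 1, v =>
    if Even v.length then ⨆ c, X (c :: v) + V X t (c :: v) else ⨅ c, X (c :: v) + V X t (c :: v)

theorem result (d : ℕ) (hd : 3 ≤ d) {Ω : Type} [MeasurableSpace Ω] (P : Measure Ω)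
    [IsProbabilityMeasure P] (X : List (Fin d) → Ω → ℤ) (hm : ∀ v, Measurable (X v))
    (hi : iIndepFun X P) (h1 : ∀ v, P.real {ω | X v ω = 1} = 1 / 2)
    (h2 : ∀ v, P.real {ω | X v ω = -1} = 1 / 2) :
    ∀ᵐ ω ∂P, ∃ L : ℤ, Tendsto (fun n => V (fun v => X v ω) (2 * n) []) atTop (𝓝 L) := by
  have e : ∀ (x : List (Fin d) → ℤ) t v, V x t v = Lib.helper3.MM.V x (fun _ => 0) t v := fun x t => by
    induction t with
    | zero => exact fun _ => rfl
    | succ t ih => intro v; simp only [V, Lib.helper3.MM.V, ih]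
  simpa only [e] using H.MP_63799c_pr.main hd hm hi h1 h2

end Pool.Agent.Results.MP_63799c_pr.AS
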